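import Pool.Agent.Helper97_SE.Hard

/-!
# STARS EQUITABLE 2-CHOOSABILITY is NP-hard

Reduction from SUBSET SUM (through PARTITION).  Write `w_i = m_i - 1` for the weight of the star
`K_{1,m_i}`.  The instance has a star of weight `4U + 2a` and a partner of weight `4U` for each item
`a` to be split, six stars of weight `4U` and eight of weight `5U`, with `U` larger than twice the
sum of the items.  If the union is equitably 2-choosable, the constant list assignment gives signs
with `|∑ ± w_i| ≤ 1`, which forces an even split of the items.  Conversely, suppose every choice of
centre colours overloads some colour with forced vertices.  Two neighbouring choices overload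
different colours `c₁`, `c₂`, and then almost every vertex is forced to `c₁` or `c₂`; at most three
centres have a list other than `{c₁, c₂}`; the remaining stars can be balanced, and this gives a
choice of centre colours without an overloaded colour, which extends greedily.
-/

namespace Pool.Agent.Results.MP_5b98da_lc.StarsChoosabilityNPHard

open Pool.Agent.NPC Pool.Agent.Helper97_SE

/-- **STARS EQUITABLE 2-CHOOSABILITY is NP-hard** under polynomial-time many-one reductions: given
natural numbers `m_1, …, m_n` in binary, it is NP-hard to decide whether the disjoint union of the
stars `K_{1,m_1}, …, K_{1,m_n}` is equitably 2-choosable. -/
theorem result : NPHardP StarsEquitable2Choosability := npHard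

end Pool.Agent.Results.MP_5b98da_lc.StarsChoosabilityNPHard
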